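import Mathlib

namespace Pool.Agent.MP_8ec908_lc.Defs

/-- First-order terms: variables `v_i`, and function symbols `f_k` of every arity `n`. -/
inductive Tm : Type
  | var : ℕ → Tm
  | app : (k : ℕ) → (n : ℕ) → (Fin n → Tm) → Tm

/-- First-order formulas: falsum, equality, relation symbols `r_k` of every arity, implication,
universal quantifier (named variables). -/
inductive Fm : Type
  | bot : Fm
  | eq : Tm → Tm → Fm
  | rel : (k : ℕ) → (n : ℕ) → (Fin n → Tm) → Fm
  | imp : Fm → Fm → Fm
  | all : ℕ → Fm → Fm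

/-- An index written in unary: `i` strokes (symbol 1) and a terminator (symbol 0). -/
def idx (i : ℕ) : List ℕ := List.replicate i 1 ++ [0]

/-- The string of a term over the finite alphabet `0,…,8` (Polish order). -/
def Tm.str : Tm → List ℕ
  | .var i => 2 :: idx i
  | .app k n ts => 3 :: (idx k ++ idx n ++ (List.ofFn fun i => (ts i).str).flatten)

/-- The string of a formula over the finite alphabet `0,…,8` (Polish order). -/
def Fm.str : Fm → List ℕ
  | .bot => [4]
  | .eq s t => 5 :: (s.str ++ t.str)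
  | .rel k n ts => 6 :: (idx k ++ idx n ++ (List.ofFn fun i => (ts i).str).flatten)
  | .imp a b => 7 :: (a.str ++ b.str)
  | .all x a => 8 :: (idx x ++ a.str)

/-- The variable `x` occurs in a term. -/
def Tm.Occ (x : ℕ) : Tm → Prop
  | .var i => i = x
  | .app _ _ ts => ∃ i, (ts i).Occ x

/-- The variable `x` occurs free in a formula. -/
def Fm.Free (x : ℕ) : Fm → Prop
  | .bot => False
  | .eq s t => s.Occ x ∨ t.Occ x
  | .rel _ _ ts => ∃ i, (ts i).Occ x
  | .imp a b => a.Free x ∨ b.Free x
  | .all y a => y ≠ x ∧ a.Free x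

/-- A sentence has no free variable. -/
def Fm.Closed (a : Fm) : Prop := ∀ x, ¬ a.Free x

/-- Substitution of `u` for the variable `x` in a term. -/
def Tm.subst : Tm → ℕ → Tm → Tm
  | .var i, x, u => if i = x then u else .var i
  | .app k n ts, x, u => .app k n fun i => (ts i).subst x u

/-- Substitution of `u` for the free occurrences of `x` in a formula. -/
def Fm.subst (x : ℕ) (u : Tm) : Fm → Fm
  | .bot => .bot
  | .eq s t => .eq (s.subst x u) (t.subst x u)
  | .rel k n ts => .rel k n fun i => (ts i).subst x u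
  | .imp a b => .imp (a.subst x u) (b.subst x u)
  | .all y a => if y = x then .all y a else .all y (a.subst x u)

/-- `u` is free for `x` in a formula (no variable of `u` is captured). -/
def Fm.FreeFor (x : ℕ) (u : Tm) : Fm → Prop
  | .bot => True
  | .eq _ _ => True
  | .rel _ _ _ => True
  | .imp a b => a.FreeFor x u ∧ b.FreeFor x u
  | .all y a => ¬ (Fm.all y a).Free x ∨ (¬ u.Occ y ∧ a.FreeFor x u)

/-- Atomic formulas. -/
def Fm.Atomic : Fm → Prop
  | .eq _ _ => True
  | .rel _ _ _ => True
  | _ => False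

/-- The logical axioms of the Hilbert calculus. -/
inductive LogAx : Fm → Prop
  | k (a b : Fm) : LogAx (.imp a (.imp b a))
  | s (a b c : Fm) : LogAx (.imp (.imp a (.imp b c)) (.imp (.imp a b) (.imp a c)))
  | dn (a : Fm) : LogAx (.imp (.imp (.imp a .bot) .bot) a)
  | inst (x : ℕ) (u : Tm) (a : Fm) : a.FreeFor x u → LogAx (.imp (.all x a) (a.subst x u))
  | dist (x : ℕ) (a b : Fm) : ¬ a.Free x → LogAx (.imp (.all x (.imp a b)) (.imp a (.all x b)))
  | refl (t : Tm) : LogAx (.eq t t)
  | leib (x : ℕ) (s t : Tm) (a : Fm) : a.Atomic →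
      LogAx (.imp (.eq s t) (.imp (a.subst x s) (a.subst x t)))

/-- `IsProof A p`: the list `p` (last line first) is a Hilbert proof from the axioms `A`: every line
is an instance of a logical scheme, a member of `A`, or follows from earlier lines by modus ponens or
generalisation. -/
inductive IsProof (A : List Fm) : List Fm → Prop
  | nil : IsProof A []
  | logic (p : List Fm) (a : Fm) : IsProof A p → LogAx a → IsProof A (a :: p)
  | ax (p : List Fm) (a : Fm) : IsProof A p → a ∈ A → IsProof A (a :: p)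
  | mp (p : List Fm) (a b : Fm) : IsProof A p → a ∈ p → Fm.imp a b ∈ p → IsProof A (b :: p)
  | gen (p : List Fm) (x : ℕ) (a : Fm) : IsProof A p → a ∈ p → IsProof A (.all x a :: p)

/-- The length of a proof: its total number of symbols. -/
def len (p : List Fm) : ℕ := (p.map fun a => a.str.length).sum

/-- `Cx true k a`: `a` is `Σ_k`; `Cx false k a`: `a` is `Π_k` (quantifier alternation classes for
formulas not in prenex form; `∃ x a` is `¬ ∀ x ¬ a`). -/
inductive Cx : Bool → ℕ → Fm → Prop
  | bot (s : Bool) (k : ℕ) : Cx s k .bot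
  | atom (s : Bool) (k : ℕ) (a : Fm) : a.Atomic → Cx s k a
  | imp (s : Bool) (k : ℕ) (a b : Fm) : Cx (!s) k a → Cx s k b → Cx s k (.imp a b)
  | all (k : ℕ) (x : ℕ) (a : Fm) : Cx false (k + 1) a → Cx false (k + 1) (.all x a)
  | up (s s' : Bool) (k : ℕ) (a : Fm) : Cx s k a → Cx s' (k + 1) a

/-- Quantifier rank (nesting depth of quantifiers). -/
def Fm.rank : Fm → ℕ
  | .bot => 0
  | .eq _ _ => 0
  | .rel _ _ _ => 0
  | .imp a b => max a.rank b.rank
  | .all _ a => a.rank + 1

/-- The arithmetic symbols `0, S, +, ·`. -/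
def zero : Tm := .app 0 0 ![]
def succ (t : Tm) : Tm := .app 0 1 ![t]
def add (s t : Tm) : Tm := .app 0 2 ![s, t]
def mul (s t : Tm) : Tm := .app 1 2 ![s, t]

/-- The numeral `S^n 0`. -/
def num : ℕ → Tm
  | 0 => zero
  | n + 1 => succ (num n)

def neg (a : Fm) : Fm := .imp a .bot
def ex (x : ℕ) (a : Fm) : Fm := neg (.all x (neg a))

/-- The seven axioms of Robinson arithmetic. -/
def Q : List Fm :=
  [ .all 0 (neg (.eq (succ (.var 0)) zero)),
    .all 0 (.all 1 (.imp (.eq (succ (.var 0)) (succ (.var 1))) (.eq (.var 0) (.var 1)))),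
    .all 0 (.imp (neg (.eq (.var 0) zero)) (ex 1 (.eq (.var 0) (succ (.var 1))))),
    .all 0 (.eq (add (.var 0) zero) (.var 0)),
    .all 0 (.all 1 (.eq (add (.var 0) (succ (.var 1))) (succ (add (.var 0) (.var 1))))),
    .all 0 (.eq (mul (.var 0) zero) zero),
    .all 0 (.all 1 (.eq (mul (.var 0) (succ (.var 1))) (add (mul (.var 0) (.var 1)) (.var 0)))) ]

/-- Terms of the language of arithmetic. -/
inductive ArT : Tm → Prop
  | var (i : ℕ) : ArT (.var i)
  | zero : ArT zero
  | succ (t : Tm) : ArT t → ArT (succ t)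
  | add (s t : Tm) : ArT s → ArT t → ArT (add s t)
  | mul (s t : Tm) : ArT s → ArT t → ArT (mul s t)

/-- Formulas of the language of arithmetic. -/
inductive ArF : Fm → Prop
  | bot : ArF .bot
  | eq (s t : Tm) : ArT s → ArT t → ArF (.eq s t)
  | imp (a b : Fm) : ArF a → ArF b → ArF (.imp a b)
  | all (x : ℕ) (a : Fm) : ArF a → ArF (.all x a)

/-- Value of a term in the standard model (non-arithmetic symbols are read as `0`). -/
def Tm.val (v : ℕ → ℕ) : Tm → ℕ
  | .var i => v i
  | .app k n ts =>
    if h : n = 1 ∧ k = 0 then (ts ⟨0, by omega⟩).val v + 1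
    else if h : n = 2 ∧ k = 0 then (ts ⟨0, by omega⟩).val v + (ts ⟨1, by omega⟩).val v
    else if h : n = 2 ∧ k = 1 then (ts ⟨0, by omega⟩).val v * (ts ⟨1, by omega⟩).val v
    else 0

/-- Truth of an arithmetic formula in the standard model. -/
def Fm.Holds : (ℕ → ℕ) → Fm → Prop
  | _, .bot => False
  | v, .eq s t => s.val v = t.val v
  | _, .rel _ _ _ => False
  | v, .imp a b => a.Holds v → b.Holds v
  | v, .all x a => ∀ m : ℕ, a.Holds (Function.update v x m)

/-- No proof of a contradiction from `A` has length at most `n`. -/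
def NoShortRefutation (A : List Fm) (n : ℕ) : Prop :=
  ¬ ∃ p, IsProof A p ∧ Fm.bot ∈ p ∧ len p ≤ n

/-- The finite consistency statement: `C` with the numerals of `c` and `n` put for `v_0`, `v_1`. -/
def con (C : Fm) (c n : ℕ) : Fm := (C.subst 0 (num c)).subst 1 (num n)

/-- A numeration of finite consistency for the theories `Q + a`: a primitive recursive Goedel
numbering `g` and an arithmetic formula `C(v_0, v_1)` such that `C(g a, n)` is true exactly when
`Q + a` has no refutation of length at most `n`, and is then provable in `Q`. -/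
structure Numeration (g : Fm → ℕ) (C : Fm) : Prop where
  primrec : ∃ h : List ℕ → ℕ, Primrec h ∧ ∀ a, g a = h a.str
  arith : ArF C
  fv : ∀ x, C.Free x → x = 0 ∨ x = 1
  correct : ∀ a : Fm, a.Closed → ∀ n : ℕ,
    ((con C (g a) n).Holds (fun _ => 0) ↔ NoShortRefutation (Q ++ [a]) n)
  provable : ∀ a : Fm, a.Closed → ∀ n : ℕ, NoShortRefutation (Q ++ [a]) n →
    ∃ p, IsProof Q p ∧ con C (g a) n ∈ p

/-- Target. -/
def Target : Prop :=
  (∃ g C, Numeration g C) ∧
  ∀ g C, Numeration g C →
    ∃ a : Fm, a.Closed ∧ (¬ ∃ p, IsProof (Q ++ [a]) p ∧ Fm.bot ∈ p) ∧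
      ∃ k : ℕ, ∃ P : Polynomial ℕ, ∀ n : ℕ,
        ∃ p, IsProof (Q ++ [a]) p ∧ p.head? = some (con C (g a) n) ∧ len p ≤ P.eval n ∧
          ∀ b ∈ p, Cx true k b ∧ b.rank ≤ k

end Pool.Agent.MP_8ec908_lc.Defs
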